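import Pool.Agent.Lib.helper16.AR2

set_option autoImplicit false

open MeasureTheory Pool.Agent.Lib.helper16.AR

namespace Pool.Agent.Results.MP_eb99da_pr.NotAR

/-- `⊕_ℤ ℤ` is not algebraically recurrent. -/
theorem result [MeasurableSpace (Multiplicative (ℤ →₀ ℤ))]
    [DiscreteMeasurableSpace (Multiplicative (ℤ →₀ ℤ))] :
    ∃ μ : PMF (Multiplicative (ℤ →₀ ℤ)), Adm μ ∧ 0 < law μ {ω | Sg ω 1 ≠ ⊤} := by
  obtain ⟨μ, h1, h2⟩ := nonAR_free (Denumerable.eqv ℤ).symm (MulEquiv.refl (Multiplicative (ℤ →₀ ℤ)))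
  exact ⟨μ, h1, pos_iff_ne_zero.2 fun h => h2 (ae_iff.2 h)⟩

end Pool.Agent.Results.MP_eb99da_pr.NotAR
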